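import Mathlib

/-!
The disjoint union of a one-point Lindelöfication of an uncountable discrete space and the unit
interval: One wins the compact-open k-cover game, has no winning strategy in the finite-open game
and has no winning predetermined strategy in the compact-open k-cover game.
-/

namespace Pool.Agent.Results.MP_c6d0b8_gt.DisjointUnion

open Set MeasureTheory

/-- The history of Two's moves before round `n` in a play in which Two plays `U`. -/
def hist {X : Type*} (U : ℕ → Set X) (n : ℕ) : List (Set X) := (List.range n).map U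

/-- One has a winning strategy in the game `G_1(N[K(X)], ¬K_X)`: a strategy is a function of the
previous moves of Two (One's own previous moves are determined by them). -/
def OneWinsK (X : Type*) [TopologicalSpace X] : Prop :=
  ∃ s : List (Set X) → Set X, (∀ h, IsCompact (s h) ∧ (s h).Nonempty) ∧
    ∀ U : ℕ → Set X, (∀ n, IsOpen (U n) ∧ s (hist U n) ⊆ U n) →
      ∀ K : Set X, IsCompact K → ∃ n, K ⊆ U n

/-- One has a winning predetermined strategy in the game `G_1(N[K(X)], ¬K_X)`. -/
def OneWinsKPre (X : Type*) [TopologicalSpace X] : Prop :=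
  ∃ s : ℕ → Set X, (∀ n, IsCompact (s n) ∧ (s n).Nonempty) ∧
    ∀ U : ℕ → Set X, (∀ n, IsOpen (U n) ∧ s n ⊆ U n) →
      ∀ K : Set X, IsCompact K → ∃ n, K ⊆ U n

/-- One has a winning strategy in the finite-open game on `X`. -/
def OneWinsFinite (X : Type*) [TopologicalSpace X] : Prop :=
  ∃ s : List (Set X) → Set X, (∀ h, (s h).Finite) ∧
    ∀ U : ℕ → Set X, (∀ n, IsOpen (U n) ∧ s (hist U n) ⊆ U n) → (⋃ n, U n) = univ

/-- The one-point Lindelöfication of the discrete set of real numbers. -/
def L := Option ℝ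

/-- The extra point. -/
def inf : L := (none : Option ℝ)

/-- The isolated points. -/
def pt (r : ℝ) : L := some r

instance : Nonempty L := ⟨inf⟩

instance : TopologicalSpace L where
  IsOpen U := inf ∈ U → Uᶜ.Countable
  isOpen_univ := fun _ => by simp
  isOpen_inter := fun U V hU hV h => by
    rw [compl_inter]; exact (hU h.1).union (hV h.2)
  isOpen_sUnion := fun S hS h => by
    obtain ⟨U, hU, hi⟩ := h
    exact (hS U hU hi).mono (compl_subset_compl.2 (subset_sUnion_of_mem hU))

lemma isOpen_L {U : Set L} : IsOpen U ↔ (inf ∈ U → Uᶜ.Countable) := Iff.rfl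

instance : T2Space L where
  t2 := by
    have key : ∀ x : L, x ≠ inf → IsOpen ({x} : Set L) ∧ IsOpen ({x}ᶜ : Set L) := by
      intro x hx
      refine ⟨fun h => absurd h (fun h' => hx (Eq.symm h')), fun _ => ?_⟩
      rw [compl_compl]; exact countable_singleton _
    intro x y hxy
    by_cases hx : x = inf
    · have hy : y ≠ inf := fun h => hxy (hx.trans h.symm)
      exact ⟨{y}ᶜ, {y}, (key y hy).2, (key y hy).1, hxy, rfl, disjoint_compl_left⟩
    · exact ⟨{x}, {x}ᶜ, (key x hx).1, (key x hx).2, rfl, fun h => hxy h.symm,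
        disjoint_compl_right⟩

/-- Compact subsets of `L` are finite. -/
lemma compact_L {A : Set L} (hA : IsCompact A) : A.Finite := by
  by_contra hinf
  have h1 : (A \ {inf}).Infinite := (show A.Infinite from hinf).sdiff (finite_singleton _)
  obtain ⟨B, hBA, hBc, hBinf⟩ := h1.exists_subset_countable_infinite
  have hBcl : IsClosed B := by
    rw [← isOpen_compl_iff, isOpen_L, compl_compl]
    exact fun _ => hBc
  have hBcomp : IsCompact B := by
    have := hA.inter_right hBcl
    rwa [inter_eq_right.2 (hBA.trans sdiff_subset)] at this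
  obtain ⟨t, ht⟩ := hBcomp.elim_finite_subcover (fun b : B => ({(b : L)} : Set L))
    (fun b => by
      rw [isOpen_L]
      intro h
      have hb : inf = (b : L) := h
      exact absurd hb.symm (hBA b.2).2)
    (fun x hx => mem_iUnion.2 ⟨⟨x, hx⟩, rfl⟩)
  exact hBinf ((t.finite_toSet.biUnion fun _ _ => finite_singleton _).subset ht)

/-- The space. -/
abbrev X := L ⊕ unitInterval

lemma isCompact_preimage_inl {K : Set X} (hK : IsCompact K) :
    IsCompact (Sum.inl ⁻¹' K : Set L) :=
  Topology.IsClosedEmbedding.inl.isCompact_preimage hK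

lemma finite_inl {K : Set X} (hK : IsCompact K) : (Sum.inl ⁻¹' K : Set L).Finite :=
  compact_L (isCompact_preimage_inl hK)

open Classical in
/-- A sequence enumerating a countable set. -/
noncomputable def enum (A : Set L) : ℕ → L :=
  if h : A.Countable then (Set.countable_iff_exists_subset_range.1 h).choose else fun _ => inf

lemma enum_spec {A : Set L} (h : A.Countable) : A ⊆ range (enum A) := by
  unfold enum
  rw [dif_pos h]
  exact (Set.countable_iff_exists_subset_range.1 h).choose_spec

/-- The finite part of One's strategy. -/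
noncomputable def fin (h : List (Set X)) : Set L :=
  {inf} ∪ ⋃ U ∈ {U | U ∈ h}, (enum (Sum.inl ⁻¹' U)ᶜ) '' {k | k < h.length}

lemma finite_fin (h : List (Set X)) : (fin h).Finite := by
  refine (finite_singleton _).union ?_
  refine Set.Finite.biUnion (List.finite_toSet h) fun U _ => ?_
  exact (finite_lt_nat _).image _

/-- One's strategy. -/
noncomputable def strat (h : List (Set X)) : Set X := Sum.inl '' fin h ∪ range Sum.inr

lemma one_wins : OneWinsK X := by
  refine ⟨strat, fun h => ⟨?_, ?_⟩, fun U hU K hK => ?_⟩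
  · refine IsCompact.union ((finite_fin h).isCompact.image continuous_inl) ?_
    exact isCompact_range continuous_inr
  · exact ⟨Sum.inl inf, Or.inl ⟨inf, Or.inl rfl, rfl⟩⟩
  · have hc : ∀ n, (Sum.inl ⁻¹' U n : Set L)ᶜ.Countable := by
      intro n
      have h1 : IsOpen (Sum.inl ⁻¹' U n : Set L) := (hU n).1.preimage continuous_inl
      exact h1 ((hU n).2 (Or.inl ⟨inf, Or.inl rfl, rfl⟩))
    have hev : ∀ c ∈ (Sum.inl ⁻¹' K : Set L), ∃ N, ∀ n, N ≤ n → Sum.inl c ∈ U n := by
      intro c _
      by_cases h : ∀ m, Sum.inl c ∈ U m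
      · exact ⟨0, fun n _ => h n⟩
      · push Not at h
        obtain ⟨m, hm⟩ := h
        obtain ⟨k, hk⟩ := enum_spec (hc m) (show c ∈ (Sum.inl ⁻¹' U m : Set L)ᶜ from hm)
        refine ⟨max m k + 1, fun n hn => (hU n).2 (Or.inl ⟨c, Or.inr ?_, rfl⟩)⟩
        simp only [mem_iUnion]
        refine ⟨U m, ?_, k, ?_, hk⟩
        · change U m ∈ hist U n
          unfold hist
          rw [List.mem_map]
          exact ⟨m, List.mem_range.2 (lt_of_le_of_lt (le_max_left _ _) hn), rfl⟩
        · change k < (hist U n).length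
          unfold hist
          rw [List.length_map, List.length_range]
          exact lt_of_le_of_lt (le_max_right _ _) hn
    choose! N hN using hev
    obtain ⟨b, hb⟩ := ((finite_inl hK).image N).bddAbove
    refine ⟨b, fun x hx => ?_⟩
    rcases x with c | z
    · exact hN c hx b (hb ⟨c, hx, rfl⟩)
    · exact (hU b).2 (Or.inr ⟨z, rfl⟩)

lemma not_pre : ¬ OneWinsKPre X := by
  rintro ⟨s, hs, hwin⟩
  have hcount : (⋃ n, (Sum.inl ⁻¹' s n : Set L)).Countable :=
    countable_iUnion fun n => (finite_inl (hs n).1).countable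
  have hex : ∃ r : ℝ, pt r ∉ ⋃ n, (Sum.inl ⁻¹' s n : Set L) := by
    by_contra hc
    push Not at hc
    have h1 : (univ : Set ℝ) ⊆ pt ⁻¹' (⋃ n, (Sum.inl ⁻¹' s n : Set L)) := fun r _ => hc r
    have hinj : Function.Injective pt := fun a b h => Option.some_injective ℝ h
    exact Cardinal.not_countable_real ((hcount.preimage hinj).mono h1)
  obtain ⟨r, hr⟩ := hex
  have hopen : IsOpen ({Sum.inl (pt r)}ᶜ : Set X) := by
    rw [isOpen_sum_iff]
    refine ⟨fun _ => ?_, ?_⟩
    · have : (Sum.inl ⁻¹' ({Sum.inl (pt r)}ᶜ : Set X) : Set L)ᶜ = {pt r} := by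
        ext x
        simp
      rw [this]; exact countable_singleton _
    · have : (Sum.inr ⁻¹' ({Sum.inl (pt r)}ᶜ : Set X) : Set unitInterval) = univ := by
        ext x
        simp
      rw [this]; exact isOpen_univ
  have hsub : ∀ n, s n ⊆ ({Sum.inl (pt r)}ᶜ : Set X) := by
    intro n x hx hx'
    rw [mem_singleton_iff] at hx'
    rw [hx'] at hx
    exact hr (mem_iUnion.2 ⟨n, hx⟩)
  obtain ⟨n, hn⟩ := hwin (fun _ => {Sum.inl (pt r)}ᶜ) (fun n => ⟨hopen, hsub n⟩)
    {Sum.inl (pt r)} isCompact_singleton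
  exact hn rfl rfl

/-- Finite sets have open neighbourhoods of small measure in the interval. -/
lemma exists_small (F : Set X) (hF : F.Finite) (n : ℕ) : ∃ U : Set X, IsOpen U ∧ F ⊆ U ∧
    volume (Sum.inr ⁻¹' U : Set unitInterval) ≤ (1 / 2 : ENNReal) ^ (n + 2) := by
  have hfin : (Sum.inr ⁻¹' F : Set unitInterval).Finite := hF.preimage Sum.inr_injective.injOn
  have hzero : volume (Sum.inr ⁻¹' F : Set unitInterval) = 0 := hfin.measure_zero _
  have hpos : (0 : ENNReal) < (1 / 2 : ENNReal) ^ (n + 2) := by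
    refine ENNReal.pow_pos ?_ _
    simp
  obtain ⟨V, hFV, hV, hVm⟩ := Set.exists_isOpen_lt_of_lt (μ := volume)
    (Sum.inr ⁻¹' F : Set unitInterval) ((1 / 2 : ENNReal) ^ (n + 2)) (by rw [hzero]; exact hpos)
  refine ⟨range Sum.inl ∪ Sum.inr '' V, ?_, ?_, ?_⟩
  · exact isOpen_range_inl.union (isOpenMap_inr V hV)
  · intro x hx
    rcases x with c | z
    · exact Or.inl ⟨c, rfl⟩
    · exact Or.inr ⟨z, hFV hx, rfl⟩
  · have : (Sum.inr ⁻¹' ((range Sum.inl ∪ Sum.inr '' V : Set X)) : Set unitInterval) = V := by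
      ext z
      simp
    rw [this]; exact hVm.le

lemma not_finite : ¬ OneWinsFinite X := by
  rintro ⟨s, hs, hwin⟩
  choose T hT1 hT2 hT3 using fun (F : {F : Set X // F.Finite}) (n : ℕ) =>
    exists_small F.1 F.2 n
  -- the history when Two uses `T`
  let H : ℕ → List (Set X) := fun n =>
    Nat.rec [] (fun n h => h ++ [T ⟨s h, hs h⟩ n]) n
  have hH0 : H 0 = [] := rfl
  have hHs : ∀ n, H (n + 1) = H n ++ [T ⟨s (H n), hs (H n)⟩ n] := fun n => rfl
  let U : ℕ → Set X := fun n => T ⟨s (H n), hs (H n)⟩ n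
  have hUH : ∀ n, hist U n = H n := by
    intro n
    induction n with
    | zero => rfl
    | succ n ih =>
      rw [hHs, ← ih]
      unfold hist
      rw [List.range_succ, List.map_append, List.map_singleton]
      have : U n = T ⟨s (H n), hs (H n)⟩ n := rfl
      rw [this]
      unfold hist at ih
      simp only [ih]
  have hcov := hwin U fun n => ⟨hT1 _ _, by rw [hUH]; exact hT2 ⟨s (H n), hs (H n)⟩ n⟩
  have h1 : (univ : Set unitInterval) ⊆ ⋃ n, Sum.inr ⁻¹' U n := by
    intro z _
    have : (Sum.inr z : X) ∈ ⋃ n, U n := by rw [hcov]; trivial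
    obtain ⟨n, hn⟩ := mem_iUnion.1 this
    exact mem_iUnion.2 ⟨n, hn⟩
  have h2 : (1 : ENNReal) ≤ ∑' n : ℕ, (1 / 2 : ENNReal) ^ (n + 2) := by
    calc (1 : ENNReal) = volume (univ : Set unitInterval) := by
          rw [measure_univ]
      _ ≤ volume (⋃ n, (Sum.inr ⁻¹' U n : Set unitInterval)) := measure_mono h1
      _ ≤ ∑' n, volume (Sum.inr ⁻¹' U n : Set unitInterval) := measure_iUnion_le _
      _ ≤ ∑' n : ℕ, (1 / 2 : ENNReal) ^ (n + 2) := ENNReal.tsum_le_tsum fun n => hT3 _ _
  have h3 : ∑' n : ℕ, (1 / 2 : ENNReal) ^ (n + 2) = (1 / 4) * 2 := by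
    have : ∀ n : ℕ, (1 / 2 : ENNReal) ^ (n + 2) = (1 / 4) * (1 / 2) ^ n := by
      intro n
      rw [pow_add, mul_comm]
      congr 1
      rw [one_div, one_div, ← ENNReal.inv_pow]
      norm_num
    simp_rw [this]
    rw [ENNReal.tsum_mul_left, ENNReal.tsum_geometric]
    have h4 : (1 - 1 / 2 : ENNReal) = 1 / 2 := by
      rw [one_div]; exact ENNReal.one_sub_inv_two
    rw [h4, one_div, one_div, inv_inv]
  rw [h3] at h2
  have h5 : (1 / 4 : ENNReal) * 2 < 1 := by
    rw [one_div, mul_comm, ← div_eq_mul_inv]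
    exact (ENNReal.div_lt_iff (by simp) (by simp)).2 (by norm_num)
  exact absurd h2 (not_le.2 h5)

/-- There is a Hausdorff space `X` such that One has a winning strategy in the game
`G_1(N[K(X)], ¬K_X)`, One has no winning strategy in the finite-open game on `X`, and One has no
winning predetermined strategy in `G_1(N[K(X)], ¬K_X)`. -/
theorem result : ∃ (X : Type) (_ : TopologicalSpace X), T2Space X ∧
    OneWinsK X ∧ ¬ OneWinsFinite X ∧ ¬ OneWinsKPre X :=
  ⟨X, inferInstance, inferInstance, one_wins, not_finite, not_pre⟩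

end Pool.Agent.Results.MP_c6d0b8_gt.DisjointUnion
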